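import Pool.Agent.X111.MM.Calc

set_option autoImplicit false
set_option linter.unusedSectionVars false

/-! Moments of the local moments of the limit field: the blocks. -/

namespace Pool.Agent.X111.MM

open MeasureTheory ProbabilityTheory Filter Topology
open Pool.Agent.X111.FL
open Pool.Agent.X111.FZ
open Pool.Agent.X111.JD (nn nn_cont)

/-- joint measurability on the line -/
lemma lz_line (k : ℝ) (S : Set ℝ) : AEMeasurable (fun x : (ℕ → ℝ × ℝ) × ℝ => lz k x.1 (Complex.I * (x.2 : ℂ))) (PG.prod (volume.restrict S)) := by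
  have hz : Measurable fun x : (ℕ → ℝ × ℝ) × ℝ => Complex.I * (x.2 : ℂ) := (Complex.measurable_ofReal.comp measurable_snd).const_mul _
  have h1 : AEMeasurable (fun x : (ℕ → ℝ × ℝ) × ℝ => gf x.1 ((Complex.I * (x.2 : ℂ)) / (Complex.I * (x.2 : ℂ) + 2))) (PG.prod (volume.restrict S)) := by
    refine aemeasurable_of_tendsto_metrizable_ae atTop (f := fun N (x : (ℕ → ℝ × ℝ) × ℝ) => ∑ n ∈ Finset.range N,
      nn (x.1 n) * (((Complex.I * (x.2 : ℂ)) / (Complex.I * (x.2 : ℂ) + 2)) ^ (n + 1) / (Real.sqrt (n + 1) : ℂ))) (fun N => ?_) ?_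
    · refine (Finset.measurable_fun_sum _ fun n _ => ?_).aemeasurable
      refine (nn_cont.measurable.comp ((measurable_pi_apply n).comp measurable_fst)).mul ?_
      exact ((hz.div (hz.add_const _)).pow_const _).div_const _
    · have g1 : ∀ᵐ x : (ℕ → ℝ × ℝ) × ℝ ∂(PG.prod (volume.restrict S)), Gd x.1 := Measure.quasiMeasurePreserving_fst.ae Gd_ae
      filter_upwards [g1] with x h1
      exact (gf_summable h1 (wd_norm (il_re x.2))).hasSum.tendsto_sum_nat
  have h2 : Measurable fun x : (ℕ → ℝ × ℝ) × ℝ => -k * Real.log ‖1 + (Complex.I * (x.2 : ℂ)) / 2‖ :=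
    (Real.measurable_log.comp ((hz.div_const _).const_add _).norm).const_mul _
  exact h2.aemeasurable.add (Complex.measurable_re.comp_aemeasurable h1)

/-- the density -/
noncomputable def U (β k a : ℝ) (ω : ℕ → ℝ × ℝ) : ENNReal := ENNReal.ofReal (Real.exp (2 * β * lz k ω (Complex.I * (a : ℂ))))

lemma U_joint (β k : ℝ) (S : Set ℝ) : AEMeasurable (fun x : (ℕ → ℝ × ℝ) × ℝ => U β k x.2 x.1) (PG.prod (volume.restrict S)) :=
  ENNReal.measurable_ofReal.comp_aemeasurable (Real.measurable_exp.comp_aemeasurable ((lz_line k S).const_mul _))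

lemma U_meas (β k a : ℝ) : AEMeasurable (U β k a) PG :=
  ENNReal.measurable_ofReal.comp_aemeasurable (Real.measurable_exp.comp_aemeasurable ((lz_meas k (il_re a)).const_mul _))

/-- the mass of a set -/
noncomputable def X (β k : ℝ) (B : Set ℝ) (ω : ℕ → ℝ × ℝ) : ENNReal := ∫⁻ a in B, U β k a ω

lemma X_meas (β k : ℝ) (B : Set ℝ) : AEMeasurable (X β k B) PG :=
  AEMeasurable.lintegral_prod_right' (f := fun x : (ℕ → ℝ × ℝ) × ℝ => U β k x.2 x.1) (U_joint β k B)

/-- concavity -/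
lemma young_up {p τ : ℝ} (hp : 0 < p) (hp1 : p ≤ 1) (hτ : 0 < τ) (x : ENNReal) :
    x ^ p ≤ ENNReal.ofReal (p * τ ^ (p - 1)) * x + ENNReal.ofReal ((1 - p) * τ ^ p) := by
  rcases eq_or_ne x ⊤ with h | h
  · rw [h, ENNReal.mul_top, top_add]
    · exact le_top
    · rw [Ne, ENNReal.ofReal_eq_zero, not_le]
      positivity
  · obtain ⟨y, hy0, rfl⟩ : ∃ y : ℝ, 0 ≤ y ∧ ENNReal.ofReal y = x := ⟨x.toReal, ENNReal.toReal_nonneg, ENNReal.ofReal_toReal h⟩
    rw [ENNReal.ofReal_rpow_of_nonneg hy0 hp.le, ← ENNReal.ofReal_mul (by positivity), ← ENNReal.ofReal_add (by positivity) (by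
      have : 0 ≤ 1 - p := by linarith
      positivity)]
    refine ENNReal.ofReal_le_ofReal ?_
    have h1 := Real.geom_mean_le_arith_mean2_weighted hp.le (show 0 ≤ 1 - p by linarith) hy0 hτ.le (by ring)
    have h2 : 0 < τ ^ (p - 1) := by positivity
    have h3 : τ ^ (p - 1) * τ ^ (1 - p) = 1 := by
      rw [← Real.rpow_add hτ]
      ring_nf
      exact Real.rpow_zero _
    have h4 : τ ^ (p - 1) * τ = τ ^ p := by
      nth_rewrite 2 [← Real.rpow_one τ]
      rw [← Real.rpow_add hτ]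
      congr 1
      ring
    calc y ^ p = τ ^ (p - 1) * (y ^ p * τ ^ (1 - p)) := by
          rw [mul_left_comm, h3, mul_one]
      _ ≤ τ ^ (p - 1) * (p * y + (1 - p) * τ) := mul_le_mul_of_nonneg_left h1 h2.le
      _ = p * τ ^ (p - 1) * y + (1 - p) * (τ ^ (p - 1) * τ) := by ring
      _ = p * τ ^ (p - 1) * y + (1 - p) * τ ^ p := by rw [h4]

/-- convexity -/
lemma young_lo {m τ : ℝ} (hm : 1 ≤ m) (hτ : 0 < τ) (x : ENNReal) :
    ENNReal.ofReal (m * τ ^ (m - 1)) * x ≤ x ^ m + ENNReal.ofReal ((m - 1) * τ ^ m) := by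
  have hm0 : 0 < m := by linarith
  rcases eq_or_ne x ⊤ with h | h
  · rw [h, ENNReal.top_rpow_of_pos hm0, top_add]
    exact le_top
  · obtain ⟨y, hy0, rfl⟩ : ∃ y : ℝ, 0 ≤ y ∧ ENNReal.ofReal y = x := ⟨x.toReal, ENNReal.toReal_nonneg, ENNReal.ofReal_toReal h⟩
    have hm1 : 0 ≤ m - 1 := by linarith
    rw [ENNReal.ofReal_rpow_of_nonneg hy0 hm0.le, ← ENNReal.ofReal_mul (by positivity), ← ENNReal.ofReal_add (by positivity) (by positivity)]
    refine ENNReal.ofReal_le_ofReal ?_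
    have h0 : 0 ≤ y / τ := by positivity
    have h1 := one_add_mul_self_le_rpow_one_add (s := y / τ - 1) (by linarith) hm
    rw [show (1 : ℝ) + (y / τ - 1) = y / τ from by ring, Real.div_rpow hy0 hτ.le] at h1
    have hp : 0 < τ ^ m := by positivity
    have h2 : τ ^ m = τ ^ (m - 1) * τ := by
      nth_rewrite 3 [← Real.rpow_one τ]
      rw [← Real.rpow_add hτ]
      congr 1
      ring
    have h3 := mul_le_mul_of_nonneg_left h1 hp.le
    rw [mul_div_cancel₀ _ hp.ne'] at h3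
    have h4 : τ ^ m * (1 + m * (y / τ - 1)) = m * τ ^ (m - 1) * y - (m - 1) * τ ^ m := by
      rw [h2]
      field_simp
      ring
    linarith

lemma ofReal_exp_rpow (x p : ℝ) : ENNReal.ofReal (Real.exp x) ^ p = ENNReal.ofReal (Real.exp (p * x)) := by
  rw [ENNReal.ofReal_rpow_of_pos (Real.exp_pos _), ← Real.exp_mul]
  congr 2
  ring

/-- the contribution of a block -/
theorem blk {β m A b : ℝ} (hm1 : 1 < m) (hm2 : m ≤ 2) (hA : 0 ≤ A) {B : Set ℝ} (hB : MeasurableSet B)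
    (hBs : ∀ a ∈ B, |a - b| ≤ A ∧ 1 + A ≤ 8 * ‖(1 : ℂ) + Complex.I * (((b - a) / 2 : ℝ) : ℂ)‖) :
    ∫⁻ ω, U β (β * m) b ω * X β (β * m) B ω ^ (m - 1) ∂PG ≤
      ENNReal.ofReal ((2 * 8 ^ (2 * β ^ 2)) ^ (m - 1) * (2 ^ (2 * β ^ 2 * (m - 1))) ^ (2 - m) * (1 + A) ^ ((m - 1) * (1 - m * β ^ 2))) := by
  obtain ⟨k, hk⟩ : ∃ k : ℝ, k = β * m := ⟨_, rfl⟩
  obtain ⟨p, hp⟩ : ∃ p : ℝ, p = m - 1 := ⟨_, rfl⟩
  have hp0 : 0 < p := by rw [hp]; linarith
  have hp1 : p ≤ 1 := by rw [hp]; linarith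
  have hr : 0 < 1 + A := by linarith
  obtain ⟨V, hV⟩ : ∃ V : ℝ, V = 2 * 8 ^ (2 * β ^ 2) * (1 + A) ^ (1 + β ^ 2 * (2 - m ^ 2)) := ⟨_, rfl⟩
  obtain ⟨W, hW⟩ : ∃ W : ℝ, W = 2 ^ (2 * β ^ 2 * (m - 1)) * (1 + A) ^ (-(β ^ 2 * (m ^ 2 - 1))) := ⟨_, rfl⟩
  have hV0 : 0 < V := by rw [hV]; positivity
  have hW0 : 0 < W := by rw [hW]; positivity
  obtain ⟨τ, hτ⟩ : ∃ τ : ℝ, τ = V / W := ⟨_, rfl⟩
  have hτ0 : 0 < τ := by rw [hτ]; positivity
  -- the pointwise bound
  have hpt : ∀ ω, U β k b ω * X β k B ω ^ p ≤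
      ENNReal.ofReal (p * τ ^ (p - 1)) * (∫⁻ a in B, ENNReal.ofReal (Real.exp (2 * β * lz k ω (Complex.I * b) + 2 * β * (m - 2) * lz k ω (tp b A) +
        2 * β * lz k ω (Complex.I * a)))) +
      ENNReal.ofReal ((1 - p) * τ ^ p) * ENNReal.ofReal (Real.exp (2 * β * lz k ω (Complex.I * b) + 2 * β * (m - 1) * lz k ω (tp b A))) := by
    intro ω
    obtain ⟨v, hv⟩ : ∃ v : ℝ, v = 2 * β * lz k ω (tp b A) := ⟨_, rfl⟩
    have h1 : X β k B ω ^ p = ENNReal.ofReal (Real.exp (p * v)) * (ENNReal.ofReal (Real.exp (-v)) * X β k B ω) ^ p := by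
      rw [ENNReal.mul_rpow_of_nonneg _ _ hp0.le, ofReal_exp_rpow, ← mul_assoc, ← ENNReal.ofReal_mul (Real.exp_pos _).le, ← Real.exp_add]
      have : p * v + p * -v = 0 := by ring
      rw [this, Real.exp_zero, ENNReal.ofReal_one, one_mul]
    have h2 := young_up hp0 hp1 hτ0 (ENNReal.ofReal (Real.exp (-v)) * X β k B ω)
    rw [h1]
    refine (mul_le_mul_right (mul_le_mul_right h2 _) _).trans (le_of_eq ?_)
    rw [mul_add, mul_add]
    congr 1
    · unfold X U
      rw [← lintegral_const_mul' _ _ ENNReal.ofReal_ne_top, ← lintegral_const_mul' _ _ ENNReal.ofReal_ne_top, ← lintegral_const_mul' _ _ ENNReal.ofReal_ne_top,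
        ← lintegral_const_mul' _ _ ENNReal.ofReal_ne_top, ← lintegral_const_mul' _ _ ENNReal.ofReal_ne_top]
      refine lintegral_congr fun a => ?_
      rw [hv]
      have e1 : Real.exp (2 * β * lz k ω (Complex.I * b) + 2 * β * (m - 2) * lz k ω (tp b A) + 2 * β * lz k ω (Complex.I * a)) =
          Real.exp (2 * β * lz k ω (Complex.I * b)) * (Real.exp (p * (2 * β * lz k ω (tp b A))) * (Real.exp (-(2 * β * lz k ω (tp b A))) *
            Real.exp (2 * β * lz k ω (Complex.I * a)))) := by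
        rw [← Real.exp_add, ← Real.exp_add, ← Real.exp_add, hp]
        congr 1
        ring
      rw [e1, ENNReal.ofReal_mul (Real.exp_pos _).le, ENNReal.ofReal_mul (Real.exp_pos _).le, ENNReal.ofReal_mul (Real.exp_pos _).le]
      ring
    · unfold U
      rw [hv]
      have e1 : Real.exp (2 * β * lz k ω (Complex.I * b) + 2 * β * (m - 1) * lz k ω (tp b A)) =
          Real.exp (2 * β * lz k ω (Complex.I * b)) * Real.exp (p * (2 * β * lz k ω (tp b A))) := by
        rw [← Real.exp_add, hp]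
        congr 1
        ring
      rw [e1, ENNReal.ofReal_mul (Real.exp_pos _).le]
      ring
  -- the mean of the ratio
  have mE : AEMeasurable (fun x : (ℕ → ℝ × ℝ) × ℝ => ENNReal.ofReal (Real.exp (2 * β * lz k x.1 (Complex.I * b) + 2 * β * (m - 2) * lz k x.1 (tp b A) +
        2 * β * lz k x.1 (Complex.I * (x.2 : ℂ))))) (PG.prod (volume.restrict B)) := by
    have g1 : AEMeasurable (fun x : (ℕ → ℝ × ℝ) × ℝ => lz k x.1 (Complex.I * b)) (PG.prod (volume.restrict B)) :=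
      (lz_meas k (il_re b)).comp_quasiMeasurePreserving Measure.quasiMeasurePreserving_fst
    have g2 : AEMeasurable (fun x : (ℕ → ℝ × ℝ) × ℝ => lz k x.1 (tp b A)) (PG.prod (volume.restrict B)) :=
      (lz_meas k (tp_ok hA)).comp_quasiMeasurePreserving Measure.quasiMeasurePreserving_fst
    exact ENNReal.measurable_ofReal.comp_aemeasurable (Real.measurable_exp.comp_aemeasurable (((g1.const_mul _).add (g2.const_mul _)).add ((lz_line k B).const_mul _)))
  have hvol : volume B ≤ ENNReal.ofReal (2 * (1 + A)) := by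
    have h1 : B ⊆ Set.Icc (b - A) (b + A) := by
      intro a ha
      have := abs_le.mp (hBs a ha).1
      exact ⟨by linarith [this.1], by linarith [this.2]⟩
    refine (measure_mono h1).trans ?_
    rw [Real.volume_Icc]
    exact ENNReal.ofReal_le_ofReal (by linarith)
  have hR : ∫⁻ ω, (∫⁻ a in B, ENNReal.ofReal (Real.exp (2 * β * lz k ω (Complex.I * b) + 2 * β * (m - 2) * lz k ω (tp b A) +
        2 * β * lz k ω (Complex.I * a)))) ∂PG ≤ ENNReal.ofReal V := by
    rw [lintegral_lintegral_swap mE]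
    have h1 : ∫⁻ a in B, ∫⁻ ω, ENNReal.ofReal (Real.exp (2 * β * lz k ω (Complex.I * b) + 2 * β * (m - 2) * lz k ω (tp b A) +
        2 * β * lz k ω (Complex.I * a))) ∂PG ≤ ∫⁻ _a in B, ENNReal.ofReal (8 ^ (2 * β ^ 2) * (1 + A) ^ (β ^ 2 * (2 - m ^ 2))) := by
      refine setLIntegral_mono' hB fun a ha => ?_
      rw [hk]
      exact r_bd hm2 hA (hBs a ha).1 (hBs a ha).2
    refine h1.trans ?_
    rw [setLIntegral_const]
    refine (mul_le_mul_right hvol _).trans (le_of_eq ?_)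
    rw [← ENNReal.ofReal_mul (by positivity), hV, Real.rpow_add hr, Real.rpow_one]
    congr 1
    ring
  have hWm : ∫⁻ ω, ENNReal.ofReal (Real.exp (2 * β * lz k ω (Complex.I * b) + 2 * β * (m - 1) * lz k ω (tp b A))) ∂PG ≤ ENNReal.ofReal W := by
    rw [hW, hk]
    exact w_bd hm1 hA b
  rw [← hk, ← hp]
  refine (lintegral_mono hpt).trans ?_
  have mW : AEMeasurable (fun ω => ENNReal.ofReal ((1 - p) * τ ^ p) *
      ENNReal.ofReal (Real.exp (2 * β * lz k ω (Complex.I * b) + 2 * β * (m - 1) * lz k ω (tp b A)))) PG :=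
    (ENNReal.measurable_ofReal.comp_aemeasurable (Real.measurable_exp.comp_aemeasurable
      (((lz_meas k (il_re b)).const_mul _).add ((lz_meas k (tp_ok hA)).const_mul _)))).const_mul _
  rw [lintegral_add_right' _ mW, lintegral_const_mul' _ _ ENNReal.ofReal_ne_top, lintegral_const_mul' _ _ ENNReal.ofReal_ne_top]
  refine (add_le_add (mul_le_mul_right hR _) (mul_le_mul_right hWm _)).trans (le_of_eq ?_)
  have hq : 0 ≤ 1 - p := by linarith
  rw [← ENNReal.ofReal_mul (by positivity), ← ENNReal.ofReal_mul (by positivity), ← ENNReal.ofReal_add (by positivity) (by positivity)]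
  congr 1
  -- the value
  have e1 : p * τ ^ (p - 1) * V + (1 - p) * τ ^ p * W = V ^ p * W ^ (1 - p) := by
    have f1 : τ ^ (p - 1) * V = V ^ p * W ^ (1 - p) := by
      rw [hτ, Real.div_rpow hV0.le hW0.le, div_mul_eq_mul_div, div_eq_iff (by positivity), mul_assoc, ← Real.rpow_add hW0]
      have : 1 - p + (p - 1) = 0 := by ring
      rw [this, Real.rpow_zero, mul_one]
      nth_rewrite 2 [← Real.rpow_one V]
      rw [← Real.rpow_add hV0]
      congr 1
      ring
    have f2 : τ ^ p * W = V ^ p * W ^ (1 - p) := by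
      rw [hτ, Real.div_rpow hV0.le hW0.le, div_mul_eq_mul_div, div_eq_iff (by positivity), mul_assoc, ← Real.rpow_add hW0]
      have : 1 - p + p = 1 := by ring
      rw [this, Real.rpow_one]
    calc p * τ ^ (p - 1) * V + (1 - p) * τ ^ p * W = p * (τ ^ (p - 1) * V) + (1 - p) * (τ ^ p * W) := by ring
      _ = V ^ p * W ^ (1 - p) := by rw [f1, f2]; ring
  rw [e1, hV, hW, Real.mul_rpow (x := 2 * 8 ^ (2 * β ^ 2)) (by positivity) (by positivity),
    Real.mul_rpow (x := 2 ^ (2 * β ^ 2 * (m - 1))) (by positivity) (by positivity), ← Real.rpow_mul hr.le, ← Real.rpow_mul hr.le]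
  have e2 : 1 - p = 2 - m := by rw [hp]; ring
  have e3 : (1 + A) ^ (p * (1 - m * β ^ 2)) = (1 + A) ^ ((1 + β ^ 2 * (2 - m ^ 2)) * p) * (1 + A) ^ (-(β ^ 2 * (m ^ 2 - 1)) * (1 - p)) := by
    rw [← Real.rpow_add hr]
    congr 1
    rw [hp]
    ring
  rw [e3, ← hp, e2]
  ring

end Pool.Agent.X111.MM
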