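import Pool.Agent.X111.FZ.Sub

set_option autoImplicit false
set_option linter.unusedSectionVars false

/-! Moments of the local moments of the limit field: the means of the products. -/

namespace Pool.Agent.X111.MM

open MeasureTheory ProbabilityTheory Filter Topology
open Pool.Agent.X111.FL
open Pool.Agent.X111.FZ

/-- three points, total degree `2k` -/
lemma lz_three_int (k a b c : ℝ) {x y z : ℂ} (hx : -1 < x.re) (hy : -1 < y.re) (hz : -1 < z.re) :
    Integrable (fun ω => Real.exp (a * lz k ω x + b * lz k ω y + c * lz k ω z)) PG := by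
  have h1 := lz_int k (ι := Fin 3) ![x, y, z] (by intro j; fin_cases j <;> assumption) ![a, b, c]
  refine h1.congr (Eventually.of_forall fun ω => ?_)
  simp [Fin.sum_univ_three]

lemma lz_three (k a b c : ℝ) (h : a + b + c = 2 * k) {x y z : ℂ} (hx : -1 < x.re) (hy : -1 < y.re) (hz : -1 < z.re) :
    ∫ ω, Real.exp (a * lz k ω x + b * lz k ω y + c * lz k ω z) ∂PG =
    Real.exp (-(1 / 4) * (a ^ 2 * sg x x + b ^ 2 * sg y y + c ^ 2 * sg z z + 2 * a * b * sg x y + 2 * a * c * sg x z + 2 * b * c * sg y z)) := by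
  have h1 := lz_real k (ι := Fin 3) ![x, y, z] (by intro j; fin_cases j <;> assumption) ![a, b, c]
  simp only [Fin.sum_univ_three, Matrix.cons_val_zero, Matrix.cons_val_one, Matrix.cons_val_two, Matrix.head_cons, Matrix.tail_cons] at h1
  rw [h1, sg_symm x y, sg_symm x z, sg_symm y z, h]
  congr 1
  ring

lemma lz_three_l (k a b c : ℝ) (h : a + b + c = 2 * k) {x y z : ℂ} (hx : -1 < x.re) (hy : -1 < y.re) (hz : -1 < z.re) :
    ∫⁻ ω, ENNReal.ofReal (Real.exp (a * lz k ω x + b * lz k ω y + c * lz k ω z)) ∂PG =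
    ENNReal.ofReal (Real.exp (-(1 / 4) * (a ^ 2 * sg x x + b ^ 2 * sg y y + c ^ 2 * sg z z + 2 * a * b * sg x y + 2 * a * c * sg x z + 2 * b * c * sg y z))) := by
  rw [← ofReal_integral_eq_lintegral_ofReal (lz_three_int k a b c hx hy hz) (Eventually.of_forall fun ω => (Real.exp_pos _).le), lz_three k a b c h hx hy hz]

lemma lz_two_l (k a b : ℝ) (h : a + b = 2 * k) {x y : ℂ} (hx : -1 < x.re) (hy : -1 < y.re) :
    ∫⁻ ω, ENNReal.ofReal (Real.exp (a * lz k ω x + b * lz k ω y)) ∂PG =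
    ENNReal.ofReal (Real.exp (-(1 / 4) * (a ^ 2 * sg x x + 2 * a * b * sg x y + b ^ 2 * sg y y))) := by
  rw [← ofReal_integral_eq_lintegral_ofReal (lz_two_int k a b hx hy) (Eventually.of_forall fun ω => (Real.exp_pos _).le), lz_two k a b hx hy, h]
  congr 2
  ring

/-- the point above `i b` -/
noncomputable def tp (b A : ℝ) : ℂ := Complex.I * (b : ℂ) + (A : ℂ)

lemma tp_re (b A : ℝ) : (tp b A).re = A := by
  unfold tp
  simp

lemma tp_ok {b A : ℝ} (hA : 0 ≤ A) : -1 < (tp b A).re := by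
  rw [tp_re]
  linarith

lemma sg_tp {b A : ℝ} (hA : 0 ≤ A) : sg (tp b A) (tp b A) = Real.log (1 + A) := by
  rw [sg_self (tp_ok hA), tp_re]

lemma sg_ltp (p q A : ℝ) : sg (Complex.I * (p : ℂ)) (tp q A) = Real.log ‖((1 + A / 2 : ℝ) : ℂ) + Complex.I * (((p - q) / 2 : ℝ) : ℂ)‖ := by
  unfold sg tp
  congr 2
  simp only [map_add, map_mul, Complex.conj_I, Complex.conj_ofReal]
  push_cast
  ring

lemma sg_ll (p q : ℝ) : sg (Complex.I * (p : ℂ)) (Complex.I * (q : ℂ)) = Real.log ‖(1 : ℂ) + Complex.I * (((p - q) / 2 : ℝ) : ℂ)‖ := by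
  unfold sg
  congr 2
  simp only [map_mul, Complex.conj_I, Complex.conj_ofReal]
  push_cast
  ring

lemma sg_ltp_self {b A : ℝ} (hA : 0 ≤ A) : sg (Complex.I * (b : ℂ)) (tp b A) = Real.log (1 + A / 2) := by
  rw [sg_ltp, sub_self, zero_div, Complex.ofReal_zero, mul_zero, add_zero, Complex.norm_real, Real.norm_of_nonneg (by linarith)]

lemma sg_ltp_le {p q A : ℝ} (hA : 0 ≤ A) (h : |p - q| ≤ A) : sg (Complex.I * (p : ℂ)) (tp q A) ≤ Real.log (1 + A) := by
  have h0 := half2_pos (il_re p) (tp_ok (b := q) hA)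
  rw [sg_ltp]

  refine Real.log_le_log ?_ ?_
  · rw [norm_pos_iff]
    intro h1
    have := congrArg Complex.re h1
    simp at this
    linarith
  · refine (norm_add_le _ _).trans ?_
    rw [norm_mul, Complex.norm_I, one_mul, Complex.norm_real, Complex.norm_real, Real.norm_of_nonneg (by linarith), Real.norm_eq_abs, abs_div, abs_two]
    linarith

/-- the mean of the weight -/
lemma w_bd {β m A : ℝ} (hm : 1 < m) (hA : 0 ≤ A) (b : ℝ) :
    ∫⁻ ω, ENNReal.ofReal (Real.exp (2 * β * lz (β * m) ω (Complex.I * b) + 2 * β * (m - 1) * lz (β * m) ω (tp b A))) ∂PG ≤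
      ENNReal.ofReal (2 ^ (2 * β ^ 2 * (m - 1)) * (1 + A) ^ (-(β ^ 2 * (m ^ 2 - 1)))) := by
  rw [lz_two_l (β * m) (2 * β) (2 * β * (m - 1)) (by ring) (il_re b) (tp_ok hA), sg_line, sg_tp hA, sg_ltp_self hA]
  refine ENNReal.ofReal_le_ofReal ?_
  have hr : 0 < 1 + A := by linarith
  rw [Real.rpow_def_of_pos two_pos, Real.rpow_def_of_pos hr, ← Real.exp_add]
  refine Real.exp_le_exp.mpr ?_
  have h1 : Real.log (1 + A) - Real.log 2 ≤ Real.log (1 + A / 2) := by
    rw [← Real.log_div hr.ne' two_ne_zero]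
    exact Real.log_le_log (by positivity) (by linarith)
  have h2 : 0 ≤ 2 * β ^ 2 * (m - 1) := mul_nonneg (by positivity) (by linarith)
  nlinarith [mul_le_mul_of_nonneg_left h1 h2]

/-- the mean of the ratio -/
lemma r_bd {β m A : ℝ} (hm : m ≤ 2) (hA : 0 ≤ A) {a b : ℝ} (h1 : |a - b| ≤ A)
    (h2 : 1 + A ≤ 8 * ‖(1 : ℂ) + Complex.I * (((b - a) / 2 : ℝ) : ℂ)‖) :
    ∫⁻ ω, ENNReal.ofReal (Real.exp (2 * β * lz (β * m) ω (Complex.I * b) + 2 * β * (m - 2) * lz (β * m) ω (tp b A) +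
      2 * β * lz (β * m) ω (Complex.I * a))) ∂PG ≤ ENNReal.ofReal (8 ^ (2 * β ^ 2) * (1 + A) ^ (β ^ 2 * (2 - m ^ 2))) := by
  rw [lz_three_l (β * m) (2 * β) (2 * β * (m - 2)) (2 * β) (by ring) (il_re b) (tp_ok hA) (il_re a), sg_line, sg_line, sg_tp hA, sg_ltp_self hA,
    sg_symm (Complex.I * (a : ℂ)) (tp b A), sg_ll]
  refine ENNReal.ofReal_le_ofReal ?_
  have hr : 0 < 1 + A := by linarith
  rw [Real.rpow_def_of_pos (by norm_num : (0:ℝ) < 8), Real.rpow_def_of_pos hr, ← Real.exp_add]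
  refine Real.exp_le_exp.mpr ?_
  have g1 : Real.log (1 + A / 2) ≤ Real.log (1 + A) := Real.log_le_log (by positivity) (by linarith)
  have g2 := sg_ltp_le hA h1
  have g3 : Real.log (1 + A) ≤ Real.log 8 + Real.log ‖(1 : ℂ) + Complex.I * (((b - a) / 2 : ℝ) : ℂ)‖ := by
    have h0 : 0 < ‖(1 : ℂ) + Complex.I * (((b - a) / 2 : ℝ) : ℂ)‖ := by linarith
    rw [← Real.log_mul (by norm_num) h0.ne']
    exact Real.log_le_log hr h2
  have p1 : 0 ≤ 2 * β ^ 2 * (2 - m) := mul_nonneg (by positivity) (by linarith)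
  have p2 : 0 ≤ 2 * β ^ 2 := by positivity
  nlinarith [mul_le_mul_of_nonneg_left g1 p1, mul_le_mul_of_nonneg_left g2 p1, mul_le_mul_of_nonneg_left g3 p2]

end Pool.Agent.X111.MM
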