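import Pool.Agent.X111.MM.Lower

set_option autoImplicit false
set_option linter.unusedSectionVars false

/-! Moments of the local moments of the limit field: the growth. -/

namespace Pool.Agent.X111.MM

open MeasureTheory ProbabilityTheory Filter Topology
open Pool.Agent.X111.FL
open Pool.Agent.X111.FZ

/-- the moment of the local moment -/
noncomputable def Lm (β m H : ℝ) : ℝ := ∫ ω, (∫ a in Set.Icc (-H) H, ‖fi (β * m) ω (Complex.I * (a : ℂ))‖ ^ (2 * β)) ^ m ∂PG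

lemma line_cont (k : ℝ) {ω : ℕ → ℝ × ℝ} (hω : Gd ω) {H : ℝ} :
    ContinuousOn (fun a : ℝ => fi k ω (Complex.I * (a : ℂ))) (Set.Icc (-H) H) := by
  refine (fi_diff k hω (H := H)).continuousOn.comp (by fun_prop) fun a ha => ?_
  rw [mem_D2]
  simp only [Complex.mul_re, Complex.I_re, Complex.ofReal_re, zero_mul, Complex.I_im, Complex.ofReal_im, mul_zero, sub_self, abs_zero,
    Complex.mul_im, one_mul, zero_add]
  refine ⟨by norm_num, ?_⟩
  rw [abs_le]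
  exact ⟨by linarith [ha.1], by linarith [ha.2]⟩

lemma X_real {β k H : ℝ} (hβ : 0 < β) {ω : ℕ → ℝ × ℝ} (hω : Gd ω) :
    X β k (Set.Icc (-H) H) ω = ENNReal.ofReal (∫ a in Set.Icc (-H) H, ‖fi k ω (Complex.I * (a : ℂ))‖ ^ (2 * β)) := by
  have hc : ContinuousOn (fun a : ℝ => ‖fi k ω (Complex.I * (a : ℂ))‖ ^ (2 * β)) (Set.Icc (-H) H) :=
    (line_cont k hω).norm.rpow_const fun _ _ => Or.inr (by positivity)
  rw [ofReal_integral_eq_lintegral_ofReal (hc.integrableOn_compact isCompact_Icc) (Eventually.of_forall fun a => Real.rpow_nonneg (norm_nonneg _) _)]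
  unfold X U
  refine lintegral_congr fun a => ?_
  rw [exp_lz k ω (il_re a), ← Real.exp_mul]
  congr 2
  ring

lemma Lm_int {β m H : ℝ} (hβ : 0 < β) (hm : 0 < m) (hH : 0 ≤ H) :
    Integrable (fun ω => (∫ a in Set.Icc (-H) H, ‖fi (β * m) ω (Complex.I * (a : ℂ))‖ ^ (2 * β)) ^ m) PG := by
  have hk : 0 < β * m := by positivity
  have h1 := (Phi_int hk hH (Apx_path hk hH (lb_cont (H := H) (b := 2 * β) (by positivity) hm) (fun c u => by
    have e1 : ∀ a : Set.Icc (-H) H, ‖(c • u) a‖ ^ (2 * β) = ‖c‖ ^ (2 * β) * ‖u a‖ ^ (2 * β) := by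
      intro a
      rw [ContinuousMap.smul_apply, norm_smul, Real.mul_rpow (norm_nonneg _) (norm_nonneg _)]
    simp_rw [e1]
    rw [integral_const_mul, Real.mul_rpow (by positivity) (integral_nonneg fun a => by positivity), ← Real.rpow_mul (norm_nonneg _)]
    congr 2
    ring))).1
  refine h1.congr ?_
  have hsub : ∀ g : ℝ → ℝ, ∫ a : Set.Icc (-H) H, g a ∂(mI H) = ∫ a in Set.Icc (-H) H, g a := fun g => integral_subtype_comap measurableSet_Icc g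
  filter_upwards [Gd_ae] with ω hω
  show (∫ a : Set.Icc (-H) H, ‖pth H (fi (β * m) ω) a‖ ^ (2 * β) ∂(mI H)) ^ m = _
  simp_rw [pth_fi (β * m) hω]
  rw [hsub fun a => ‖fi (β * m) ω (Complex.I * (a : ℂ))‖ ^ (2 * β)]

lemma Lm_J {β m H : ℝ} (hβ : 0 < β) (hm : 0 < m) (hH : 0 ≤ H) : ENNReal.ofReal (Lm β m H) = J β m H := by
  unfold Lm J
  have h0 : ∀ ω, 0 ≤ ∫ a in Set.Icc (-H) H, ‖fi (β * m) ω (Complex.I * (a : ℂ))‖ ^ (2 * β) := fun ω =>
    integral_nonneg fun a => Real.rpow_nonneg (norm_nonneg _) _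
  rw [ofReal_integral_eq_lintegral_ofReal (Lm_int hβ hm hH) (Eventually.of_forall fun ω => Real.rpow_nonneg (h0 ω) _)]
  refine lintegral_congr_ae ?_
  filter_upwards [Gd_ae] with ω hω
  rw [X_real hβ hω, ENNReal.ofReal_rpow_of_nonneg (h0 ω) hm.le]

lemma Lm_nonneg (β m H : ℝ) : 0 ≤ Lm β m H := integral_nonneg fun _ =>
  Real.rpow_nonneg (integral_nonneg fun _ => Real.rpow_nonneg (norm_nonneg _) _) _

lemma Lm_le {β m H x : ℝ} (hβ : 0 < β) (hm : 0 < m) (hH : 0 ≤ H) (hx : 0 ≤ x) (h : J β m H ≤ ENNReal.ofReal x) : Lm β m H ≤ x := by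
  rw [← Lm_J hβ hm hH] at h
  exact (ENNReal.ofReal_le_ofReal_iff hx).mp h

lemma le_Lm {β m H x : ℝ} (hβ : 0 < β) (hm : 0 < m) (hH : 0 ≤ H) (h : ENNReal.ofReal x ≤ J β m H) : x ≤ Lm β m H := by
  rw [← Lm_J hβ hm hH] at h
  exact (ENNReal.ofReal_le_ofReal_iff (Lm_nonneg β m H)).mp h

lemma ex_N {H : ℝ} (hH : 1 ≤ H) : ∃ N : ℕ, 2 * H ≤ 2 ^ N ∧ (2:ℝ) ^ N ≤ 4 * H := by
  classical
  have hex : ∃ N : ℕ, 2 * H ≤ 2 ^ N := by
    obtain ⟨N, hN⟩ := exists_nat_ge (2 * H)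
    exact ⟨N, hN.trans (by exact_mod_cast (Nat.lt_two_pow_self (n := N)).le)⟩
  refine ⟨Nat.find hex, Nat.find_spec hex, ?_⟩
  rcases Nat.eq_zero_or_pos (Nat.find hex) with h | h
  · rw [h, pow_zero]
    linarith
  · have h1 : ¬ 2 * H ≤ 2 ^ (Nat.find hex - 1) := Nat.find_min hex (by omega)
    push Not at h1
    obtain ⟨j, hj⟩ : ∃ j : ℕ, Nat.find hex = j + 1 := ⟨Nat.find hex - 1, by omega⟩
    rw [hj, Nat.add_sub_cancel] at h1
    rw [hj, pow_succ]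
    linarith

/-- the supercritical case, upper bound -/
theorem up_sup {β m : ℝ} (hβ : 0 < β) (hm1 : 1 < m) (hm2 : m ≤ 2) (h : 1 < m * β ^ 2) :
    ∃ C : ℝ, 0 < C ∧ ∀ H : ℝ, 1 ≤ H → Lm β m H ≤ C * H := by
  obtain ⟨γ, hγ⟩ : ∃ γ : ℝ, γ = (m - 1) * (1 - m * β ^ 2) := ⟨_, rfl⟩
  have hγ0 : γ < 0 := by
    rw [hγ]
    exact mul_neg_of_pos_of_neg (by linarith) (by linarith)
  obtain ⟨x, hx⟩ : ∃ x : ℝ, x = (2:ℝ) ^ γ := ⟨_, rfl⟩
  have hx0 : 0 < x := by rw [hx]; positivity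
  have hx1 : x < 1 := by rw [hx]; exact Real.rpow_lt_one_of_one_lt_of_neg (by norm_num) hγ0
  obtain ⟨D, hD⟩ : ∃ D : ℝ, D = (2 * 8 ^ (2 * β ^ 2)) ^ (m - 1) * (2 ^ (2 * β ^ 2 * (m - 1))) ^ (2 - m) := ⟨_, rfl⟩
  have hD0 : 0 < D := by rw [hD]; positivity
  have hx2 : 0 < 1 - x := by linarith
  refine ⟨2 * (D * (1 - x)⁻¹), by positivity, fun H hH => ?_⟩
  obtain ⟨N, hN, -⟩ := ex_N hH
  refine Lm_le hβ (by linarith) (by linarith) (by positivity) ((up hm1 hm2 hN).trans (ENNReal.ofReal_le_ofReal ?_))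
  rw [← hγ, ← hD]
  have h1 : ∑ n : Fin (N + 1), (1 + (2:ℝ) ^ (n : ℕ)) ^ γ ≤ (1 - x)⁻¹ := by
    rw [Fin.sum_univ_eq_sum_range (fun n : ℕ => (1 + (2:ℝ) ^ n) ^ γ)]
    have h0 : ∑ n ∈ Finset.range (N + 1), x ^ n ≤ (1 - x)⁻¹ := by
      rw [← tsum_geometric_of_lt_one hx0.le hx1]
      exact (summable_geometric_of_lt_one hx0.le hx1).sum_le_tsum _ fun n _ => by positivity
    refine le_trans (Finset.sum_le_sum fun n _ => ?_) h0
    have h2 : (1 + (2:ℝ) ^ n) ^ γ ≤ ((2:ℝ) ^ n) ^ γ := Real.rpow_le_rpow_of_nonpos (by positivity) (by linarith) hγ0.le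
    refine h2.trans (le_of_eq ?_)
    rw [hx, ← Real.rpow_natCast, ← Real.rpow_mul (by norm_num), ← Real.rpow_natCast, ← Real.rpow_mul (by norm_num)]
    congr 1
    ring
  have h3 : 0 ≤ 2 * H * D := by positivity
  nlinarith [mul_le_mul_of_nonneg_left h1 h3]

/-- the subcritical case, upper bound -/
theorem up_sub {β m : ℝ} (hβ : 0 < β) (hm1 : 1 < m) (hm2 : m ≤ 2) (h : m * β ^ 2 < 1) :
    ∃ C : ℝ, 0 < C ∧ ∀ H : ℝ, 1 ≤ H → Lm β m H ≤ C * H ^ (m + m * β ^ 2 - m ^ 2 * β ^ 2) := by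
  obtain ⟨γ, hγ⟩ : ∃ γ : ℝ, γ = (m - 1) * (1 - m * β ^ 2) := ⟨_, rfl⟩
  have hγ0 : 0 < γ := by
    rw [hγ]
    exact mul_pos (by linarith) (by linarith)
  obtain ⟨x, hx⟩ : ∃ x : ℝ, x = (2:ℝ) ^ γ := ⟨_, rfl⟩
  have hx1 : 1 < x := by rw [hx]; exact Real.one_lt_rpow (by norm_num) hγ0
  have hx0 : 0 < x := by linarith
  have hx2 : 0 < x - 1 := by linarith
  obtain ⟨D, hD⟩ : ∃ D : ℝ, D = (2 * 8 ^ (2 * β ^ 2)) ^ (m - 1) * (2 ^ (2 * β ^ 2 * (m - 1))) ^ (2 - m) := ⟨_, rfl⟩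
  have hD0 : 0 < D := by rw [hD]; positivity
  refine ⟨2 * D * (x * (x * 4 ^ γ) / (x - 1)), by positivity, fun H hH => ?_⟩
  obtain ⟨N, hN, hN2⟩ := ex_N hH
  have hH0 : 0 < H := by linarith
  refine Lm_le hβ (by linarith) (by linarith) (by positivity) ((up hm1 hm2 hN).trans (ENNReal.ofReal_le_ofReal ?_))
  rw [← hγ, ← hD]
  have h1 : ∑ n : Fin (N + 1), (1 + (2:ℝ) ^ (n : ℕ)) ^ γ ≤ x * (x * 4 ^ γ) / (x - 1) * H ^ γ := by
    rw [Fin.sum_univ_eq_sum_range (fun n : ℕ => (1 + (2:ℝ) ^ n) ^ γ)]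
    have h2 : ∑ n ∈ Finset.range (N + 1), (1 + (2:ℝ) ^ n) ^ γ ≤ ∑ n ∈ Finset.range (N + 1), x * x ^ n := by
      refine Finset.sum_le_sum fun n _ => ?_
      have h3 : (1 + (2:ℝ) ^ n) ≤ 2 * 2 ^ n := by
        have : (1:ℝ) ≤ 2 ^ n := one_le_pow₀ (by norm_num)
        linarith
      refine (Real.rpow_le_rpow (by positivity) h3 hγ0.le).trans (le_of_eq ?_)
      rw [Real.mul_rpow (by norm_num) (by positivity), ← hx]
      congr 1
      rw [hx, ← Real.rpow_natCast, ← Real.rpow_mul (by norm_num), ← Real.rpow_natCast, ← Real.rpow_mul (by norm_num)]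
      congr 1
      ring
    refine h2.trans ?_
    rw [← Finset.mul_sum, geom_sum_eq hx1.ne']
    have h4 : x ^ N ≤ 4 ^ γ * H ^ γ := by
      have e1 : x ^ N = ((2:ℝ) ^ N) ^ γ := by
        rw [hx, ← Real.rpow_natCast, ← Real.rpow_mul (by norm_num), ← Real.rpow_natCast, ← Real.rpow_mul (by norm_num)]
        congr 1
        ring
      rw [e1, ← Real.mul_rpow (by norm_num) hH0.le]
      exact Real.rpow_le_rpow (by positivity) hN2 hγ0.le
    rw [mul_div_assoc', div_mul_eq_mul_div, div_le_div_iff_of_pos_right hx2, mul_assoc, pow_succ]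
    refine mul_le_mul_of_nonneg_left ?_ hx0.le
    nlinarith
  have h3 : 0 ≤ 2 * H * D := by positivity
  have e2 : H ^ (m + m * β ^ 2 - m ^ 2 * β ^ 2) = H * H ^ γ := by
    nth_rewrite 2 [← Real.rpow_one H]
    rw [← Real.rpow_add hH0, hγ]
    congr 1
    ring
  rw [e2]
  have h5 := mul_le_mul_of_nonneg_left h1 h3
  calc 2 * H * (D * ∑ n : Fin (N + 1), (1 + (2:ℝ) ^ (n : ℕ)) ^ γ) = 2 * H * D * ∑ n : Fin (N + 1), (1 + (2:ℝ) ^ (n : ℕ)) ^ γ := by ring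
    _ ≤ 2 * H * D * (x * (x * 4 ^ γ) / (x - 1) * H ^ γ) := h5
    _ = _ := by ring

/-- the critical case, upper bound -/
theorem up_crit {β m : ℝ} (hβ : 0 < β) (hm1 : 1 < m) (hm2 : m ≤ 2) (h : m * β ^ 2 = 1) :
    ∃ C : ℝ, 0 < C ∧ ∀ H : ℝ, 1 ≤ H → Lm β m H ≤ C * H * (1 + Real.log H) := by
  obtain ⟨D, hD⟩ : ∃ D : ℝ, D = (2 * 8 ^ (2 * β ^ 2)) ^ (m - 1) * (2 ^ (2 * β ^ 2 * (m - 1))) ^ (2 - m) := ⟨_, rfl⟩
  have hD0 : 0 < D := by rw [hD]; positivity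
  refine ⟨2 * D * 3, by positivity, fun H hH => ?_⟩
  obtain ⟨N, hN, hN2⟩ := ex_N hH
  have hH0 : 0 < H := by linarith
  have hl0 : 0 ≤ Real.log H := Real.log_nonneg hH
  refine Lm_le hβ (by linarith) (by linarith) (by positivity) ((up hm1 hm2 hN).trans (ENNReal.ofReal_le_ofReal ?_))
  rw [h, sub_self, mul_zero, ← hD]
  simp only [Real.rpow_zero, Finset.sum_const, Finset.card_univ, Fintype.card_fin, nsmul_eq_mul, mul_one]
  have h1 : (N : ℝ) * Real.log 2 ≤ Real.log (4 * H) := by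
    rw [← Real.log_pow]
    exact Real.log_le_log (by positivity) hN2
  rw [Real.log_mul (by norm_num) hH0.ne'] at h1
  have h2 : Real.log 4 = 2 * Real.log 2 := by
    rw [show (4:ℝ) = 2 ^ 2 from by norm_num, Real.log_pow]
    norm_num
  have h3 : (1 / 2 : ℝ) < Real.log 2 := by linarith [Real.log_two_gt_d9]
  have h4 : ((N : ℝ) - 2) * Real.log 2 ≤ Real.log H := by
    rw [h2] at h1
    linarith
  have h5 : (N : ℝ) - 2 ≤ 2 * Real.log H := by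
    rcases le_or_gt ((N : ℝ) - 2) 0 with h6 | h6
    · linarith
    · nlinarith
  have h6 : ((N + 1 : ℕ) : ℝ) ≤ 3 * (1 + Real.log H) := by
    push_cast
    linarith
  have h7 : 0 ≤ 2 * H * D := by positivity
  calc 2 * H * (D * ((N + 1 : ℕ) : ℝ)) = 2 * H * D * ((N + 1 : ℕ) : ℝ) := by ring
    _ ≤ 2 * H * D * (3 * (1 + Real.log H)) := mul_le_mul_of_nonneg_left h6 h7
    _ = _ := by ring

/-- the linear lower bound -/
theorem lo_lin {β m : ℝ} (hβ : 0 < β) (hm1 : 1 < m) (hm2 : m ≤ 2) : ∃ c : ℝ, 0 < c ∧ ∀ H : ℝ, 1 ≤ H → c * H ≤ Lm β m H := by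
  refine ⟨2 ^ (-(2 * β ^ 2 * (m - 1))), by positivity, fun H hH => ?_⟩
  refine le_trans ?_ (le_Lm hβ (by linarith) (by linarith) (low_lin hm1 hm2))
  rw [mul_comm]
  refine mul_le_mul_of_nonneg_right ?_ (by positivity)
  linarith

/-- the other lower bound -/
theorem lo_top {β m : ℝ} (hβ : 0 < β) (hm1 : 1 < m) :
    ∃ c : ℝ, 0 < c ∧ ∀ H : ℝ, 1 ≤ H → c * H ^ (m + m * β ^ 2 - m ^ 2 * β ^ 2) ≤ Lm β m H := by
  refine ⟨2 ^ m * 2 ^ (m * β ^ 2 * (1 - m)), by positivity, fun H hH => ?_⟩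
  have hH0 : 0 < H := by linarith
  refine le_trans ?_ (le_Lm hβ (by linarith) (by linarith) (low_top hm1 hH0))
  have h1 : m * β ^ 2 * (1 - m) ≤ 0 := mul_nonpos_of_nonneg_of_nonpos (by positivity) (by linarith)
  have h2 : (2 * H) ^ (m * β ^ 2 * (1 - m)) ≤ (1 + H) ^ (m * β ^ 2 * (1 - m)) := Real.rpow_le_rpow_of_nonpos (by positivity) (by linarith) h1
  have h3 : (2 ^ m * 2 ^ (m * β ^ 2 * (1 - m))) * H ^ (m + m * β ^ 2 - m ^ 2 * β ^ 2) = (2 * H) ^ m * (2 * H) ^ (m * β ^ 2 * (1 - m)) := by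
    rw [Real.mul_rpow (by norm_num) hH0.le, Real.mul_rpow (by norm_num) hH0.le]
    have e1 : H ^ (m + m * β ^ 2 - m ^ 2 * β ^ 2) = H ^ m * H ^ (m * β ^ 2 * (1 - m)) := by
      rw [← Real.rpow_add hH0]
      congr 1
      ring
    rw [e1]
    ring
  rw [h3]
  exact mul_le_mul_of_nonneg_left h2 (by positivity)

end Pool.Agent.X111.MM
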