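import Pool.Agent.X111.MM.Upper

set_option autoImplicit false
set_option linter.unusedSectionVars false

/-! Moments of the local moments of the limit field: the lower bounds. -/

namespace Pool.Agent.X111.MM

open MeasureTheory ProbabilityTheory Filter Topology
open Pool.Agent.X111.FL
open Pool.Agent.X111.FZ

/-- concavity, integrated -/
lemma jensen {α : Type*} [MeasurableSpace α] {μ : Measure α} (hμ : μ Set.univ ≤ 1) {p : ℝ} (hp0 : 0 < p) (hp1 : p ≤ 1) (f : α → ENNReal) :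
    ∫⁻ a, f a ^ p ∂μ ≤ (∫⁻ a, f a ∂μ) ^ p := by
  rcases eq_or_ne (∫⁻ a, f a ∂μ) ⊤ with h | h
  · rw [h, ENNReal.top_rpow_of_pos hp0]
    exact le_top
  · obtain ⟨x, hx0, hx⟩ : ∃ x : ℝ, 0 ≤ x ∧ ENNReal.ofReal x = ∫⁻ a, f a ∂μ := ⟨_, ENNReal.toReal_nonneg, ENNReal.ofReal_toReal h⟩
    rw [← hx, ENNReal.ofReal_rpow_of_nonneg hx0 hp0.le]
    have hcont : Tendsto (fun τ : ℝ => ENNReal.ofReal (τ ^ p)) (𝓝[>] x) (𝓝 (ENNReal.ofReal (x ^ p))) := by
      refine (ENNReal.continuous_ofReal.tendsto _).comp ?_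
      exact ((Real.continuousAt_rpow_const x p (Or.inr hp0.le)).tendsto).mono_left nhdsWithin_le_nhds
    refine ge_of_tendsto hcont ?_
    filter_upwards [self_mem_nhdsWithin] with τ hτ
    have hτx : x < τ := hτ
    have hτ0 : 0 < τ := lt_of_le_of_lt hx0 hτx
    have hq : 0 ≤ 1 - p := by linarith
    calc ∫⁻ a, f a ^ p ∂μ ≤ ∫⁻ a, (ENNReal.ofReal (p * τ ^ (p - 1)) * f a + ENNReal.ofReal ((1 - p) * τ ^ p)) ∂μ :=
          lintegral_mono fun a => young_up hp0 hp1 hτ0 (f a)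
      _ = ENNReal.ofReal (p * τ ^ (p - 1)) * ENNReal.ofReal x + ENNReal.ofReal ((1 - p) * τ ^ p) * μ Set.univ := by
          rw [lintegral_add_right _ measurable_const, lintegral_const_mul' _ _ ENNReal.ofReal_ne_top, lintegral_const, hx]
      _ ≤ ENNReal.ofReal (p * τ ^ (p - 1)) * ENNReal.ofReal τ + ENNReal.ofReal ((1 - p) * τ ^ p) * 1 :=
          add_le_add (mul_le_mul_right (ENNReal.ofReal_le_ofReal hτx.le) _) (mul_le_mul_right hμ _)
      _ = ENNReal.ofReal (τ ^ p) := by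
          rw [mul_one, ← ENNReal.ofReal_mul (by positivity), ← ENNReal.ofReal_add (by positivity) (by positivity)]
          congr 1
          have h4 : τ ^ (p - 1) * τ = τ ^ p := by
            nth_rewrite 2 [← Real.rpow_one τ]
            rw [← Real.rpow_add hτ0]
            congr 1
            ring
          calc p * τ ^ (p - 1) * τ + (1 - p) * τ ^ p = p * (τ ^ (p - 1) * τ) + (1 - p) * τ ^ p := by ring
            _ = τ ^ p := by rw [h4]; ring

/-- the linear lower bound -/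
theorem low_lin {β m H : ℝ} (hm1 : 1 < m) (hm2 : m ≤ 2) :
    ENNReal.ofReal ((2 * H - 1) * 2 ^ (-(2 * β ^ 2 * (m - 1)))) ≤ J β m H := by
  obtain ⟨k, hk⟩ : ∃ k : ℝ, k = β * m := ⟨_, rfl⟩
  have hp0 : 0 < m - 1 := by linarith
  rw [J_eq hm1, ← hk]
  have key : ∀ b ∈ Set.Icc (-H) (H - 1), ENNReal.ofReal (2 ^ (-(2 * β ^ 2 * (m - 1)))) ≤
      ∫⁻ ω, U β k b ω * X β k (Set.Icc (-H) H) ω ^ (m - 1) ∂PG := by
    intro b hb
    have hsub : Set.Icc b (b + 1) ⊆ Set.Icc (-H) H := Set.Icc_subset_Icc hb.1 (by linarith [hb.2])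
    have h1 : ∀ ω, U β k b ω * ∫⁻ a in Set.Icc b (b + 1), U β k a ω ^ (m - 1) ≤ U β k b ω * X β k (Set.Icc (-H) H) ω ^ (m - 1) := by
      intro ω
      refine mul_le_mul_right ?_ _
      refine (jensen (μ := volume.restrict (Set.Icc b (b + 1))) ?_ hp0 (by linarith) fun a => U β k a ω).trans
        (ENNReal.rpow_le_rpow (lintegral_mono_set hsub) hp0.le)
      rw [Measure.restrict_apply_univ, Real.volume_Icc]
      simp
    refine le_trans ?_ (lintegral_mono h1)
    have e1 : ∀ ω, U β k b ω * ∫⁻ a in Set.Icc b (b + 1), U β k a ω ^ (m - 1) =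
        ∫⁻ a in Set.Icc b (b + 1), ENNReal.ofReal (Real.exp (2 * β * lz k ω (Complex.I * b) + 2 * β * (m - 1) * lz k ω (Complex.I * a))) := by
      intro ω
      unfold U
      rw [← lintegral_const_mul' _ _ ENNReal.ofReal_ne_top]
      refine lintegral_congr fun a => ?_
      rw [ofReal_exp_rpow, ← ENNReal.ofReal_mul (Real.exp_pos _).le, ← Real.exp_add]
      congr 2
      ring
    simp_rw [e1]
    have mE : AEMeasurable (fun x : (ℕ → ℝ × ℝ) × ℝ => ENNReal.ofReal (Real.exp (2 * β * lz k x.1 (Complex.I * b) +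
        2 * β * (m - 1) * lz k x.1 (Complex.I * (x.2 : ℂ))))) (PG.prod (volume.restrict (Set.Icc b (b + 1)))) := by
      have g1 : AEMeasurable (fun x : (ℕ → ℝ × ℝ) × ℝ => lz k x.1 (Complex.I * b)) (PG.prod (volume.restrict (Set.Icc b (b + 1)))) :=
        (lz_meas k (il_re b)).comp_quasiMeasurePreserving Measure.quasiMeasurePreserving_fst
      exact ENNReal.measurable_ofReal.comp_aemeasurable (Real.measurable_exp.comp_aemeasurable ((g1.const_mul _).add ((lz_line k _).const_mul _)))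
    rw [lintegral_lintegral_swap mE]
    have h2 : ∫⁻ _a in Set.Icc b (b + 1), ENNReal.ofReal ((2:ℝ) ^ (-(2 * β ^ 2 * (m - 1)))) ≤ ∫⁻ a in Set.Icc b (b + 1), ∫⁻ ω,
        ENNReal.ofReal (Real.exp (2 * β * lz k ω (Complex.I * b) + 2 * β * (m - 1) * lz k ω (Complex.I * a))) ∂PG := by
      refine setLIntegral_mono' measurableSet_Icc fun a ha => ?_
      rw [lz_two_l k (2 * β) (2 * β * (m - 1)) (by rw [hk]; ring) (il_re b) (il_re a), sg_line, sg_line, sg_ll]
      refine ENNReal.ofReal_le_ofReal ?_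
      rw [Real.rpow_def_of_pos two_pos]
      refine Real.exp_le_exp.mpr ?_
      have h3 : Real.log ‖(1 : ℂ) + Complex.I * (((b - a) / 2 : ℝ) : ℂ)‖ ≤ Real.log 2 := by
        have h5 : (1:ℝ) ≤ ‖(1 : ℂ) + Complex.I * (((b - a) / 2 : ℝ) : ℂ)‖ := by
          have := Complex.abs_re_le_norm ((1 : ℂ) + Complex.I * (((b - a) / 2 : ℝ) : ℂ))
          simpa using this
        refine Real.log_le_log (by linarith) ?_
        refine (norm_add_le _ _).trans ?_
        rw [norm_one, norm_mul, Complex.norm_I, one_mul, Complex.norm_real, Real.norm_eq_abs, abs_div, abs_two]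
        have h6 : |b - a| ≤ 1 := by
          rw [abs_le]
          exact ⟨by linarith [ha.2], by linarith [ha.1]⟩
        linarith
      have h4 : 0 ≤ 2 * β ^ 2 * (m - 1) := by positivity
      nlinarith [mul_le_mul_of_nonneg_left h3 h4]
    refine le_trans (le_of_eq ?_) h2
    rw [setLIntegral_const, Real.volume_Icc]
    simp
  have hsub2 : Set.Icc (-H) (H - 1) ⊆ Set.Icc (-H) H := Set.Icc_subset_Icc le_rfl (by linarith)
  refine le_trans ?_ (lintegral_mono_set hsub2)
  refine le_trans (le_of_eq ?_) (setLIntegral_mono' measurableSet_Icc key)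
  rw [setLIntegral_const, Real.volume_Icc, ← ENNReal.ofReal_mul (by positivity)]
  congr 1
  ring

/-- the other lower bound -/
theorem low_top {β m H : ℝ} (hm1 : 1 < m) (hH : 0 < H) :
    ENNReal.ofReal ((2 * H) ^ m * (1 + H) ^ (m * β ^ 2 * (1 - m))) ≤ J β m H := by
  obtain ⟨k, hk⟩ : ∃ k : ℝ, k = β * m := ⟨_, rfl⟩
  have hr : 0 < 1 + H := by linarith
  obtain ⟨V, hV⟩ : ∃ V : ℝ, V = 2 * H * (1 + H) ^ (-(β ^ 2 * (m ^ 2 - 1))) := ⟨_, rfl⟩
  obtain ⟨W, hW⟩ : ∃ W : ℝ, W = (1 + H) ^ (-(k ^ 2)) := ⟨_, rfl⟩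
  have hV0 : 0 < V := by rw [hV]; positivity
  have hW0 : 0 < W := by rw [hW]; positivity
  obtain ⟨τ, hτ⟩ : ∃ τ : ℝ, τ = V / W := ⟨_, rfl⟩
  have hτ0 : 0 < τ := by rw [hτ]; positivity
  have hm0 : 0 < m := by linarith
  have hq : 0 ≤ m - 1 := by linarith
  -- the pointwise bound
  have hpt : ∀ ω, ENNReal.ofReal (m * τ ^ (m - 1)) * (∫⁻ a in Set.Icc (-H) H, ENNReal.ofReal (Real.exp (2 * β * lz k ω (Complex.I * a) +
      2 * β * (m - 1) * lz k ω (tp 0 H)))) ≤ X β k (Set.Icc (-H) H) ω ^ m +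
        ENNReal.ofReal ((m - 1) * τ ^ m) * ENNReal.ofReal (Real.exp (2 * k * lz k ω (tp 0 H))) := by
    intro ω
    obtain ⟨v, hv⟩ : ∃ v : ℝ, v = 2 * β * lz k ω (tp 0 H) := ⟨_, rfl⟩
    have h1 : X β k (Set.Icc (-H) H) ω ^ m = ENNReal.ofReal (Real.exp (m * v)) * (ENNReal.ofReal (Real.exp (-v)) * X β k (Set.Icc (-H) H) ω) ^ m := by
      rw [ENNReal.mul_rpow_of_nonneg _ _ hm0.le, ofReal_exp_rpow, ← mul_assoc, ← ENNReal.ofReal_mul (Real.exp_pos _).le, ← Real.exp_add]
      have : m * v + m * -v = 0 := by ring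
      rw [this, Real.exp_zero, ENNReal.ofReal_one, one_mul]
    have h2 := young_lo hm1.le hτ0 (ENNReal.ofReal (Real.exp (-v)) * X β k (Set.Icc (-H) H) ω)
    have h3 := mul_le_mul_right h2 (ENNReal.ofReal (Real.exp (m * v)))
    rw [mul_add, ← h1] at h3
    refine le_trans (le_of_eq ?_) (h3.trans (le_of_eq ?_))
    · unfold X U
      rw [← lintegral_const_mul' _ _ ENNReal.ofReal_ne_top, ← lintegral_const_mul' _ _ ENNReal.ofReal_ne_top, ← lintegral_const_mul' _ _ ENNReal.ofReal_ne_top,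
        ← lintegral_const_mul' _ _ ENNReal.ofReal_ne_top]
      refine lintegral_congr fun a => ?_
      rw [hv]
      have e1 : Real.exp (2 * β * lz k ω (Complex.I * a) + 2 * β * (m - 1) * lz k ω (tp 0 H)) =
          Real.exp (m * (2 * β * lz k ω (tp 0 H))) * (Real.exp (-(2 * β * lz k ω (tp 0 H))) * Real.exp (2 * β * lz k ω (Complex.I * a))) := by
        rw [← Real.exp_add, ← Real.exp_add]
        congr 1
        ring
      rw [e1, ENNReal.ofReal_mul (Real.exp_pos _).le, ENNReal.ofReal_mul (Real.exp_pos _).le]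
      ring
    · congr 1
      rw [hv, mul_comm]
      congr 3
      rw [hk]
      ring
  -- the means
  have mE : AEMeasurable (fun x : (ℕ → ℝ × ℝ) × ℝ => ENNReal.ofReal (Real.exp (2 * β * lz k x.1 (Complex.I * (x.2 : ℂ)) +
      2 * β * (m - 1) * lz k x.1 (tp 0 H)))) (PG.prod (volume.restrict (Set.Icc (-H) H))) := by
    have g1 : AEMeasurable (fun x : (ℕ → ℝ × ℝ) × ℝ => lz k x.1 (tp 0 H)) (PG.prod (volume.restrict (Set.Icc (-H) H))) :=
      (lz_meas k (tp_ok hH.le)).comp_quasiMeasurePreserving Measure.quasiMeasurePreserving_fst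
    exact ENNReal.measurable_ofReal.comp_aemeasurable (Real.measurable_exp.comp_aemeasurable (((lz_line k _).const_mul _).add (g1.const_mul _)))
  have hR : ENNReal.ofReal V ≤ ∫⁻ ω, (∫⁻ a in Set.Icc (-H) H, ENNReal.ofReal (Real.exp (2 * β * lz k ω (Complex.I * a) +
      2 * β * (m - 1) * lz k ω (tp 0 H)))) ∂PG := by
    rw [lintegral_lintegral_swap mE]
    have h1 : ∫⁻ _a in Set.Icc (-H) H, ENNReal.ofReal ((1 + H) ^ (-(β ^ 2 * (m ^ 2 - 1)))) ≤
        ∫⁻ a in Set.Icc (-H) H, ∫⁻ ω, ENNReal.ofReal (Real.exp (2 * β * lz k ω (Complex.I * a) + 2 * β * (m - 1) * lz k ω (tp 0 H))) ∂PG := by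
      refine setLIntegral_mono' measurableSet_Icc fun a ha => ?_
      rw [lz_two_l k (2 * β) (2 * β * (m - 1)) (by rw [hk]; ring) (il_re a) (tp_ok hH.le), sg_line, sg_tp hH.le]
      refine ENNReal.ofReal_le_ofReal ?_
      rw [Real.rpow_def_of_pos hr]
      refine Real.exp_le_exp.mpr ?_
      have h3 : sg (Complex.I * (a : ℂ)) (tp 0 H) ≤ Real.log (1 + H) := sg_ltp_le hH.le (by
        rw [sub_zero, abs_le]
        exact ⟨ha.1, ha.2⟩)
      have h4 : 0 ≤ 2 * β ^ 2 * (m - 1) := by positivity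
      nlinarith [mul_le_mul_of_nonneg_left h3 h4]
    refine le_trans (le_of_eq ?_) h1
    rw [setLIntegral_const, Real.volume_Icc, ← ENNReal.ofReal_mul (by positivity), hV]
    congr 1
    ring
  have hWm : ∫⁻ ω, ENNReal.ofReal (Real.exp (2 * k * lz k ω (tp 0 H))) ∂PG = ENNReal.ofReal W := by
    rw [← ofReal_integral_eq_lintegral_ofReal (lz_one_int k (2 * k) (tp_ok hH.le)) (Eventually.of_forall fun ω => (Real.exp_pos _).le),
      lz_one k (2 * k) (tp_ok hH.le), sg_tp hH.le, hW, Real.rpow_def_of_pos hr]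
    congr 2
    ring
  have h5 := lintegral_mono (μ := PG) hpt
  have mW : AEMeasurable (fun ω => ENNReal.ofReal ((m - 1) * τ ^ m) * ENNReal.ofReal (Real.exp (2 * k * lz k ω (tp 0 H)))) PG :=
    (ENNReal.measurable_ofReal.comp_aemeasurable (Real.measurable_exp.comp_aemeasurable ((lz_meas k (tp_ok hH.le)).const_mul _))).const_mul _
  rw [lintegral_const_mul' _ _ ENNReal.ofReal_ne_top, lintegral_add_right' _ mW, lintegral_const_mul' _ _ ENNReal.ofReal_ne_top, hWm] at h5
  have h6 := (mul_le_mul_right hR (ENNReal.ofReal (m * τ ^ (m - 1)))).trans h5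
  rw [← ENNReal.ofReal_mul (by positivity), ← ENNReal.ofReal_mul (by positivity)] at h6
  -- the values
  obtain ⟨D, hD⟩ : ∃ D : ℝ, D = (2 * H) ^ m * (1 + H) ^ (m * β ^ 2 * (1 - m)) := ⟨_, rfl⟩
  have hD0 : 0 ≤ D := by rw [hD]; positivity
  have hDV : D = V ^ m * W ^ (1 - m) := by
    rw [hD, hV, hW, Real.mul_rpow (x := 2 * H) (by positivity) (by positivity), ← Real.rpow_mul hr.le, ← Real.rpow_mul hr.le, mul_assoc ((2 * H) ^ m), ← Real.rpow_add hr]
    congr 2
    rw [hk]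
    ring
  have f1 : m * τ ^ (m - 1) * V = D + (m - 1) * D := by
    have : τ ^ (m - 1) * V = D := by
      rw [hDV, hτ, Real.div_rpow hV0.le hW0.le, div_mul_eq_mul_div, div_eq_iff (by positivity), mul_assoc, ← Real.rpow_add hW0]
      have : 1 - m + (m - 1) = 0 := by ring
      rw [this, Real.rpow_zero, mul_one]
      nth_rewrite 2 [← Real.rpow_one V]
      rw [← Real.rpow_add hV0]
      congr 1
      ring
    rw [mul_assoc, this]
    ring
  have f2 : (m - 1) * τ ^ m * W = (m - 1) * D := by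
    have : τ ^ m * W = D := by
      rw [hDV, hτ, Real.div_rpow hV0.le hW0.le, div_mul_eq_mul_div, div_eq_iff (by positivity), mul_assoc, ← Real.rpow_add hW0]
      have : 1 - m + m = 1 := by ring
      rw [this, Real.rpow_one]
    rw [mul_assoc, this]
  rw [f1, f2, ENNReal.ofReal_add hD0 (by positivity)] at h6
  have h7 := (ENNReal.add_le_add_iff_right ENNReal.ofReal_ne_top).mp h6
  rw [← hD]
  unfold J
  rw [← hk]
  exact h7

end Pool.Agent.X111.MM
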