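import Pool.Agent.X111.MM.Blk

set_option autoImplicit false
set_option linter.unusedSectionVars false

/-! Moments of the local moments of the limit field: the upper bound. -/

namespace Pool.Agent.X111.MM

open MeasureTheory ProbabilityTheory Filter Topology
open Pool.Agent.X111.FL
open Pool.Agent.X111.FZ

/-- the blocks around `b` -/
def Bl (b : ℝ) (n : ℕ) : Set ℝ := {a | |a - b| ≤ 2 ^ n ∧ 1 + (2:ℝ) ^ n ≤ 8 * ‖(1 : ℂ) + Complex.I * (((b - a) / 2 : ℝ) : ℂ)‖}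

lemma Bl_meas (b : ℝ) (n : ℕ) : MeasurableSet (Bl b n) := by
  have h1 : IsClosed {a : ℝ | |a - b| ≤ 2 ^ n} := isClosed_le (by fun_prop) continuous_const
  have h2 : IsClosed {a : ℝ | 1 + (2:ℝ) ^ n ≤ 8 * ‖(1 : ℂ) + Complex.I * (((b - a) / 2 : ℝ) : ℂ)‖} := isClosed_le continuous_const (by fun_prop)
  exact (h1.inter h2).measurableSet

lemma Bl_cover {b a : ℝ} (N : ℕ) (h : |a - b| ≤ 2 ^ N) : ∃ n : Fin (N + 1), a ∈ Bl b n := by
  classical
  have hex : ∃ n : ℕ, |a - b| ≤ 2 ^ n := ⟨N, h⟩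
  obtain ⟨n, hn⟩ : ∃ n : ℕ, n = Nat.find hex := ⟨_, rfl⟩
  have h1 : |a - b| ≤ 2 ^ n := by rw [hn]; exact Nat.find_spec hex
  have h2 : n ≤ N := by rw [hn]; exact Nat.find_min' hex h
  refine ⟨⟨n, by omega⟩, h1, ?_⟩
  show 1 + (2:ℝ) ^ n ≤ _
  have hre : (1:ℝ) ≤ ‖(1 : ℂ) + Complex.I * (((b - a) / 2 : ℝ) : ℂ)‖ := by
    have := Complex.abs_re_le_norm ((1 : ℂ) + Complex.I * (((b - a) / 2 : ℝ) : ℂ))
    simpa using this
  have him : |a - b| / 2 ≤ ‖(1 : ℂ) + Complex.I * (((b - a) / 2 : ℝ) : ℂ)‖ := by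
    have h3 := Complex.abs_im_le_norm ((1 : ℂ) + Complex.I * (((b - a) / 2 : ℝ) : ℂ))
    have h4 : ((1 : ℂ) + Complex.I * (((b - a) / 2 : ℝ) : ℂ)).im = (b - a) / 2 := by
      rw [Complex.add_im, Complex.one_im, Complex.I_mul_im, Complex.ofReal_re, zero_add]
    rw [h4, abs_div, abs_two, abs_sub_comm] at h3
    exact h3
  rcases Nat.eq_zero_or_pos n with h0 | h0
  · rw [h0, pow_zero]
    linarith
  · obtain ⟨j, hj⟩ : ∃ j : ℕ, n = j + 1 := ⟨n - 1, by omega⟩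
    have h5 : ¬ |a - b| ≤ 2 ^ j := Nat.find_min hex (by omega)
    push Not at h5
    rw [hj, pow_succ]
    have h6 : (1:ℝ) ≤ 2 ^ j := one_le_pow₀ (by norm_num)
    linarith

lemma sum_rpow_le {ι : Type*} (s : Finset ι) (x : ι → ENNReal) {p : ℝ} (hp : 0 < p) (hp1 : p ≤ 1) : (∑ i ∈ s, x i) ^ p ≤ ∑ i ∈ s, x i ^ p := by
  classical
  induction s using Finset.induction_on with
  | empty => simp [hp]
  | insert a s ha ih =>
    rw [Finset.sum_insert ha, Finset.sum_insert ha]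
    exact (ENNReal.rpow_add_le_add_rpow _ _ hp.le hp1).trans (add_le_add le_rfl ih)

/-- the moment of the mass -/
noncomputable def J (β m H : ℝ) : ENNReal := ∫⁻ ω, X β (β * m) (Set.Icc (-H) H) ω ^ m ∂PG

/-- the mass and its power -/
lemma J_eq {β m H : ℝ} (hm : 1 < m) :
    J β m H = ∫⁻ b in Set.Icc (-H) H, ∫⁻ ω, U β (β * m) b ω * X β (β * m) (Set.Icc (-H) H) ω ^ (m - 1) ∂PG := by
  obtain ⟨k, hk⟩ : ∃ k : ℝ, k = β * m := ⟨_, rfl⟩
  unfold J
  rw [← hk]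
  have hj := U_joint β k (Set.Icc (-H) H)
  have hX : AEMeasurable (fun x : (ℕ → ℝ × ℝ) × ℝ => X β k (Set.Icc (-H) H) x.1 ^ (m - 1)) (PG.prod (volume.restrict (Set.Icc (-H) H))) :=
    ((X_meas β k (Set.Icc (-H) H)).pow_const _).comp_quasiMeasurePreserving Measure.quasiMeasurePreserving_fst
  have hm2 : AEMeasurable (Function.uncurry fun (ω : ℕ → ℝ × ℝ) (b : ℝ) => U β k b ω * X β k (Set.Icc (-H) H) ω ^ (m - 1))
      (PG.prod (volume.restrict (Set.Icc (-H) H))) := hj.mul hX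
  rw [← lintegral_lintegral_swap hm2]
  refine lintegral_congr_ae ?_
  filter_upwards [hj.aestronglyMeasurable.prodMk_left] with ω hω
  rw [lintegral_mul_const'' _ hω.aemeasurable]
  have e1 : m = 1 + (m - 1) := by ring
  nth_rewrite 1 [e1]
  rw [ENNReal.rpow_add_of_nonneg _ _ zero_le_one (by linarith), ENNReal.rpow_one]
  rfl

/-- **The upper bound.** -/
theorem up {β m H : ℝ} (hm1 : 1 < m) (hm2 : m ≤ 2) {N : ℕ} (hN : 2 * H ≤ 2 ^ N) :
    J β m H ≤ ENNReal.ofReal (2 * H * ((2 * 8 ^ (2 * β ^ 2)) ^ (m - 1) * (2 ^ (2 * β ^ 2 * (m - 1))) ^ (2 - m) *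
      ∑ n : Fin (N + 1), (1 + (2:ℝ) ^ (n : ℕ)) ^ ((m - 1) * (1 - m * β ^ 2)))) := by
  obtain ⟨C, hC⟩ : ∃ C : ℝ, C = (2 * 8 ^ (2 * β ^ 2)) ^ (m - 1) * (2 ^ (2 * β ^ 2 * (m - 1))) ^ (2 - m) := ⟨_, rfl⟩
  have hC0 : 0 ≤ C := by rw [hC]; positivity
  have hp0 : 0 < m - 1 := by linarith
  rw [J_eq hm1, ← hC]
  have key : ∀ b ∈ Set.Icc (-H) H, ∫⁻ ω, U β (β * m) b ω * X β (β * m) (Set.Icc (-H) H) ω ^ (m - 1) ∂PG ≤
      ENNReal.ofReal (C * ∑ n : Fin (N + 1), (1 + (2:ℝ) ^ (n : ℕ)) ^ ((m - 1) * (1 - m * β ^ 2))) := by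
    intro b hb
    have hcov : Set.Icc (-H) H ⊆ ⋃ n : Fin (N + 1), Bl b n := by
      intro a ha
      rw [Set.mem_iUnion]
      refine Bl_cover N ?_
      rw [abs_le]
      exact ⟨by linarith [ha.1, hb.2], by linarith [ha.2, hb.1]⟩
    have h1 : ∀ ω, X β (β * m) (Set.Icc (-H) H) ω ≤ ∑ n : Fin (N + 1), X β (β * m) (Bl b n) ω := by
      intro ω
      refine (lintegral_mono_set hcov).trans ((lintegral_iUnion_le _ _).trans ?_)
      rw [tsum_fintype]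
      rfl
    calc ∫⁻ ω, U β (β * m) b ω * X β (β * m) (Set.Icc (-H) H) ω ^ (m - 1) ∂PG
        ≤ ∫⁻ ω, ∑ n : Fin (N + 1), U β (β * m) b ω * X β (β * m) (Bl b n) ω ^ (m - 1) ∂PG := by
          refine lintegral_mono fun ω => ?_
          rw [← Finset.mul_sum]
          exact mul_le_mul_right ((ENNReal.rpow_le_rpow (h1 ω) hp0.le).trans (sum_rpow_le _ _ hp0 (by linarith))) _
      _ = ∑ n : Fin (N + 1), ∫⁻ ω, U β (β * m) b ω * X β (β * m) (Bl b n) ω ^ (m - 1) ∂PG :=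
          lintegral_finsetSum' _ fun n _ => (U_meas β (β * m) b).mul ((X_meas β (β * m) (Bl b n)).pow_const _)
      _ ≤ ∑ n : Fin (N + 1), ENNReal.ofReal (C * (1 + (2:ℝ) ^ (n : ℕ)) ^ ((m - 1) * (1 - m * β ^ 2))) := by
          refine Finset.sum_le_sum fun n _ => ?_
          rw [hC]
          exact blk hm1 hm2 (by positivity) (Bl_meas b n) fun a ha => ha
      _ = _ := by
          rw [← ENNReal.ofReal_sum_of_nonneg fun n _ => by positivity, Finset.mul_sum]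
  refine (setLIntegral_mono' measurableSet_Icc key).trans ?_
  rw [setLIntegral_const, Real.volume_Icc, ← ENNReal.ofReal_mul (by positivity)]
  refine ENNReal.ofReal_le_ofReal (le_of_eq ?_)
  ring

end Pool.Agent.X111.MM
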